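import Pool.Agent.MP_26f8ef_al.H29.Main

/-! The class of finitely generated parafree groups is uniformly equationally Noetherian: every
subset `S` of a finitely generated group `X` has a finite subset `S₀` such that each homomorphism
from `X` to a finitely generated parafree group that kills `S₀` kills `S`. -/

namespace Pool.Agent.Results.MP_26f8ef_al.EqNoetherian

universe u v

theorem result (X : Type u) [Group X] (hX : Group.FG X) (S : Set X) :
    ∃ S₀ : Set X, S₀ ⊆ S ∧ S₀.Finite ∧ ∀ (G : Type v) [Group G], Group.FG G →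
      (⨅ n, (⊤ : Subgroup G).lowerCentralSeries n) = ⊥ →
      (∃ r : ℕ, ∀ n, Nonempty ((G ⧸ (⊤ : Subgroup G).lowerCentralSeries n) ≃*
        (FreeGroup (Fin r) ⧸ (⊤ : Subgroup (FreeGroup (Fin r))).lowerCentralSeries n))) →
      ∀ f : X →* G, (∀ w ∈ S₀, f w = 1) → ∀ w ∈ S, f w = 1 :=
  Pool.Agent.MP_26f8ef_al.H29.noeth' hX S

end Pool.Agent.Results.MP_26f8ef_al.EqNoetherian
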