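import Pool.Agent.MP_26f8ef_al.Mg.Main

/-! A finitely generated parafree group with a non-trivial element that every homomorphism to
`GL₂(K)`, or to a central quotient of it such as `PGL₂(K)`, kills. -/

namespace Pool.Agent.Results.MP_26f8ef_al.NotDegreeTwo

theorem result : ∃ (G : Type) (_ : Group G), Group.FG G ∧
    (⨅ n, (⊤ : Subgroup G).lowerCentralSeries n) = ⊥ ∧
    (∀ n, Nonempty ((G ⧸ (⊤ : Subgroup G).lowerCentralSeries n) ≃*
      (FreeGroup (Fin 8) ⧸ (⊤ : Subgroup (FreeGroup (Fin 8))).lowerCentralSeries n))) ∧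
    ∃ g : G, g ≠ 1 ∧ ∀ (K : Type) [Field K] (Q : Type) [Group Q] (π : GL (Fin 2) K →* Q),
      Function.Surjective π → π.ker ≤ Subgroup.center (GL (Fin 2) K) →
        ∀ ρ : G →* Q, ρ g = 1 := by
  obtain ⟨G, _, h1, h2, h3, g, hg, h4⟩ := Pool.Agent.MP_26f8ef_al.main
  exact ⟨G, inferInstance, h1, h2, h3, g, hg, fun K _ Q _ π hπ hk =>
    h4 K Q π hπ fun x hx w => Subgroup.mem_center_iff.1 (hk hx) w⟩

end Pool.Agent.Results.MP_26f8ef_al.NotDegreeTwo
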